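import Mathlib

/-!
# The two-threshold inequality (golden ratio)
-/

open MeasureTheory Set

namespace Pool.Agent.Helper30.Bog

/-- the algebraic heart: three numbers in `[0,1]` -/
theorem alg_key {s₁ s₂ s₃ : ℝ} (h1 : 0 ≤ s₁) (h2 : 0 ≤ s₂) (h3 : 0 ≤ s₃) (h1' : s₁ ≤ 1)
    (h2' : s₂ ≤ 1) (h3' : s₃ ≤ 1) (hne : ¬ (s₁ = 1 ∧ s₂ = 1 ∧ s₃ = 1))
    (h : 2 * (s₁ + s₂ + s₃) ≤ 3 * (1 + s₁ * s₂ * s₃)) :
    Real.goldenRatio ^ 3 * (s₁ * s₂ * s₃) ≤ 1 := by
  set τ : ℝ := (s₁ + s₂ + s₃) / 3 with hτ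
  have hτ0 : 0 ≤ τ := by positivity
  have hτ1 : τ < 1 := by
    by_contra hcon
    push Not at hcon
    apply hne
    rw [hτ] at hcon
    refine ⟨?_, ?_, ?_⟩ <;> linarith
  have hamgm : s₁ * s₂ * s₃ ≤ τ ^ 3 := by
    have e : s₁ + s₂ + s₃ = 3 * τ := by rw [hτ]; ring
    have h27 : 27 * (s₁ * s₂ * s₃) ≤ (s₁ + s₂ + s₃) ^ 3 := by
      nlinarith [mul_nonneg h1 (sq_nonneg (s₂ - s₃)), mul_nonneg h2 (sq_nonneg (s₁ - s₃)),
        mul_nonneg h3 (sq_nonneg (s₁ - s₂)), mul_nonneg h1 (sq_nonneg (s₁ - s₂)),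
        mul_nonneg h2 (sq_nonneg (s₁ - s₂)), mul_nonneg h1 (sq_nonneg (s₁ - s₃)),
        mul_nonneg h3 (sq_nonneg (s₁ - s₃)), mul_nonneg h2 (sq_nonneg (s₂ - s₃)),
        mul_nonneg h3 (sq_nonneg (s₂ - s₃))]
    rw [e] at h27
    nlinarith
  have hcub : 0 ≤ τ ^ 3 - 2 * τ + 1 := by
    have e : s₁ + s₂ + s₃ = 3 * τ := by rw [hτ]; ring
    rw [e] at h
    nlinarith
  have hfac : 0 ≤ (1 - τ) * (1 - τ - τ ^ 2) := by nlinarith
  have hq : 0 ≤ 1 - τ - τ ^ 2 := by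
    by_contra hcon
    push Not at hcon
    have : (1 - τ) * (1 - τ - τ ^ 2) < 0 := mul_neg_of_pos_of_neg (by linarith) hcon
    linarith
  have hg := Real.goldenRatio_sq
  have hgpos := Real.goldenRatio_pos
  -- φ τ ≤ 1
  have hgt : Real.goldenRatio * τ ≤ 1 := by
    by_contra hcon
    push Not at hcon
    -- (φ τ)² > φ τ > 1 ; φ² (τ² + τ) = (φ τ)² + φ (φ τ) > 1 + φ = φ²
    have h1 : (1 : ℝ) < (Real.goldenRatio * τ) ^ 2 := by nlinarith
    have h2 : Real.goldenRatio * 1 < Real.goldenRatio * (Real.goldenRatio * τ) :=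
      mul_lt_mul_of_pos_left hcon hgpos
    have h3 : Real.goldenRatio ^ 2 * (τ + τ ^ 2) ≤ Real.goldenRatio ^ 2 * 1 :=
      mul_le_mul_of_nonneg_left (by linarith) (by positivity)
    nlinarith
  calc Real.goldenRatio ^ 3 * (s₁ * s₂ * s₃) ≤ Real.goldenRatio ^ 3 * τ ^ 3 :=
        mul_le_mul_of_nonneg_left hamgm (by positivity)
    _ = (Real.goldenRatio * τ) ^ 3 := by ring
    _ ≤ 1 := pow_le_one₀ (by positivity) hgt

/-- the integrated pair inequality -/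
theorem pair_le {a b : ℝ → ℝ} (ha : Antitone a) (hb : Antitone b) {A B α β q : ℝ}
    (hA : 0 < A) (hB : 0 < B) (haA : ∀ t, 0 ≤ a t ∧ a t ≤ A) (hbB : ∀ t, 0 ≤ b t ∧ b t ≤ B)
    (hα : α ≤ ∫ t in (0 : ℝ)..1, a t) (hβ : β ≤ ∫ t in (0 : ℝ)..1, b t)
    (hq : ∀ t ∈ Set.Ioo (0 : ℝ) 1, a t * b (1 - t) ≤ q * (A * B)) :
    α / A + β / B ≤ 1 + q := by
  have hb' : Monotone (fun t => b (1 - t)) := fun x y hxy => hb (by linarith)
  have hia : IntervalIntegrable a volume 0 1 := ha.intervalIntegrable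
  have hib : IntervalIntegrable (fun t => b (1 - t)) volume 0 1 := hb'.intervalIntegrable
  have hrefl : ∫ t in (0 : ℝ)..1, b (1 - t) = ∫ t in (0 : ℝ)..1, b t := by
    rw [intervalIntegral.integral_comp_sub_left]
    norm_num
  have hpt : ∀ t ∈ Set.Ioo (0 : ℝ) 1, a t / A + b (1 - t) / B ≤ 1 + q := by
    intro t ht
    have h1 := haA t
    have h2 := hbB (1 - t)
    have h3 := hq t ht
    have hx0 : 0 ≤ a t / A := div_nonneg h1.1 hA.le
    have hx1 : a t / A ≤ 1 := (div_le_one hA).mpr h1.2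
    have hy0 : 0 ≤ b (1 - t) / B := div_nonneg h2.1 hB.le
    have hy1 : b (1 - t) / B ≤ 1 := (div_le_one hB).mpr h2.2
    have hxy : (a t / A) * (b (1 - t) / B) ≤ q := by
      rw [div_mul_div_comm, div_le_iff₀ (by positivity)]
      exact h3
    nlinarith
  have hint : ∫ t in (0 : ℝ)..1, (a t / A + b (1 - t) / B) ≤ ∫ t in (0 : ℝ)..1, (1 + q) := by
    refine intervalIntegral.integral_mono_on_of_le_Ioo zero_le_one
      ((hia.div_const A).add (hib.div_const B)) (by simp) hpt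
  rw [intervalIntegral.integral_add (hia.div_const A) (hib.div_const B),
    intervalIntegral.integral_div, intervalIntegral.integral_div, hrefl] at hint
  simp only [intervalIntegral.integral_const, sub_zero, smul_eq_mul, one_mul] at hint
  have e1 : α / A ≤ (∫ t in (0 : ℝ)..1, a t) / A := div_le_div_of_nonneg_right hα hA.le
  have e2 : β / B ≤ (∫ t in (0 : ℝ)..1, b t) / B := div_le_div_of_nonneg_right hβ hB.le
  linarith

/-- half-way bound for an antitone function -/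
theorem half_le {a : ℝ → ℝ} (ha : Antitone a) {A α : ℝ} (haA : ∀ t, a t ≤ A)
    (hα : α ≤ ∫ t in (0 : ℝ)..1, a t) : α ≤ (A + a (1 / 2)) / 2 := by
  have hia : ∀ x y, IntervalIntegrable a volume x y := fun x y => ha.intervalIntegrable
  have h1 : ∫ t in (0 : ℝ)..1, a t = (∫ t in (0 : ℝ)..(1 / 2), a t) + ∫ t in (1 / 2 : ℝ)..1, a t :=
    (intervalIntegral.integral_add_adjacent_intervals (hia _ _) (hia _ _)).symm
  have h2 : ∫ t in (0 : ℝ)..(1 / 2), a t ≤ ∫ t in (0 : ℝ)..(1 / 2), A :=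
    intervalIntegral.integral_mono_on (by norm_num) (hia _ _) (by simp) (fun t _ => haA t)
  have h3 : ∫ t in (1 / 2 : ℝ)..1, a t ≤ ∫ t in (1 / 2 : ℝ)..1, a (1 / 2) :=
    intervalIntegral.integral_mono_on (by norm_num) (hia _ _) (by simp) (fun t ht => ha ht.1)
  simp only [intervalIntegral.integral_const, sub_zero, smul_eq_mul] at h2 h3
  rw [h1] at hα
  norm_num at h2 h3 ⊢
  linarith

/-- the key lemma for three antitone functions -/
theorem three_key {a b c : ℝ → ℝ} (ha : Antitone a) (hb : Antitone b) (hc : Antitone c)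
    {A B C α β γ : ℝ} (haA : ∀ t, 0 ≤ a t ∧ a t ≤ A) (hbB : ∀ t, 0 ≤ b t ∧ b t ≤ B)
    (hcC : ∀ t, 0 ≤ c t ∧ c t ≤ C)
    (hα0 : 0 < α) (hβ0 : 0 < β) (hγ0 : 0 < γ) (hα : α ≤ ∫ t in (0 : ℝ)..1, a t)
    (hβ : β ≤ ∫ t in (0 : ℝ)..1, b t) (hγ : γ ≤ ∫ t in (0 : ℝ)..1, c t)
    (hα1 : α ≤ A) (hβ1 : β ≤ B) (hγ1 : γ ≤ C) :
    Real.goldenRatio ^ 3 * (α * β * γ) ≤ A * B * C ∨
      (∃ t ∈ Set.Ioo (0 : ℝ) 1, α * β * γ ≤ a t * b (1 - t) * C) ∨
      (∃ t ∈ Set.Ioo (0 : ℝ) 1, α * β * γ ≤ a t * B * c (1 - t)) ∨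
      (∃ t ∈ Set.Ioo (0 : ℝ) 1, α * β * γ ≤ A * b t * c (1 - t)) := by
  by_contra hcon
  push Not at hcon
  obtain ⟨h0, h1, h2, h3⟩ := hcon
  have hA : 0 < A := hα0.trans_le hα1
  have hB : 0 < B := hβ0.trans_le hβ1
  have hC : 0 < C := hγ0.trans_le hγ1
  set q : ℝ := (α / A) * (β / B) * (γ / C) with hq
  have hqe : q * (A * B * C) = α * β * γ := by
    rw [hq]; field_simp
  have p1 : α / A + β / B ≤ 1 + q := by
    refine pair_le ha hb hA hB haA hbB hα hβ (fun t ht => ?_)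
    have := h1 t ht
    rw [← hqe] at this
    have h4 : (a t * b (1 - t)) * C ≤ (q * (A * B)) * C := by linarith
    exact le_of_mul_le_mul_right h4 hC
  have p2 : α / A + γ / C ≤ 1 + q := by
    refine pair_le ha hc hA hC haA hcC hα hγ (fun t ht => ?_)
    have := h2 t ht
    rw [← hqe] at this
    have h4 : (a t * c (1 - t)) * B ≤ (q * (A * C)) * B := by linarith
    exact le_of_mul_le_mul_right h4 hB
  have p3 : β / B + γ / C ≤ 1 + q := by
    refine pair_le hb hc hB hC hbB hcC hβ hγ (fun t ht => ?_)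
    have := h3 t ht
    rw [← hqe] at this
    have h4 : (b t * c (1 - t)) * A ≤ (q * (B * C)) * A := by linarith
    exact le_of_mul_le_mul_right h4 hA
  have hne : ¬ (α / A = 1 ∧ β / B = 1 ∧ γ / C = 1) := by
    rintro ⟨e1, e2, e3⟩
    have e1' : α = A := by rwa [div_eq_one_iff_eq hA.ne'] at e1
    have e2' : β = B := by rwa [div_eq_one_iff_eq hB.ne'] at e2
    have g1 := half_le ha (fun t => (haA t).2) hα
    have g2 := half_le hb (fun t => (hbB t).2) hβ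
    have e3' : γ = C := by rwa [div_eq_one_iff_eq hC.ne'] at e3
    have k1 : A ≤ a (1 / 2) := by linarith
    have k2 : B ≤ b (1 / 2) := by linarith
    have := h1 (1 / 2) (by constructor <;> norm_num)
    have e4 : (1 : ℝ) - 1 / 2 = 1 / 2 := by norm_num
    rw [e4, e1', e2', e3'] at this
    have k3 : A * B ≤ a (1 / 2) * b (1 / 2) := mul_le_mul k1 k2 hB.le (haA _).1
    have := mul_le_mul_of_nonneg_right k3 hC.le
    linarith
  have hfin := alg_key (div_nonneg hα0.le hA.le) (div_nonneg hβ0.le hB.le)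
    (div_nonneg hγ0.le hC.le) ((div_le_one hA).mpr hα1) ((div_le_one hB).mpr hβ1)
    ((div_le_one hC).mpr hγ1) hne (by rw [← hq]; linarith)
  rw [← hq] at hfin
  have : Real.goldenRatio ^ 3 * (α * β * γ) ≤ A * B * C := by
    rw [← hqe]
    have := mul_le_mul_of_nonneg_right hfin (by positivity : 0 ≤ A * B * C)
    linarith
  linarith

end Pool.Agent.Helper30.Bog
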