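import Pool.Agent.Helper30.Bog.Proj

/-!
# Sets which are monotone with respect to arbitrary functions of the coordinates
-/

open MeasureTheory Set

namespace Pool.Agent.Helper30.Bog

/-- the algebraic key lemma -/
theorem alg_key2 {s₁ s₂ s₃ : ℝ} (h1 : 0 ≤ s₁) (h2 : 0 ≤ s₂) (h3 : 0 ≤ s₃) (h1' : s₁ ≤ 1)
    (h2' : s₂ ≤ 1) (h3' : s₃ ≤ 1) (hne : ¬ (s₁ = 1 ∧ s₂ = 1 ∧ s₃ = 1))
    (h : s₁ + s₂ + s₃ ≤ 3 * (11 / 20 + 9 / 20 * (s₁ * s₂ * s₃))) :
    Real.exp 1 * (s₁ * s₂ * s₃) ≤ 1 := by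
  set τ : ℝ := (s₁ + s₂ + s₃) / 3 with hτ
  have e : s₁ + s₂ + s₃ = 3 * τ := by rw [hτ]; ring
  have hτ0 : 0 ≤ τ := by positivity
  have hτ1 : τ < 1 := by
    by_contra hcon
    rw [not_lt] at hcon
    apply hne
    rw [hτ] at hcon
    refine ⟨?_, ?_, ?_⟩ <;> linarith
  have hamgm : s₁ * s₂ * s₃ ≤ τ ^ 3 := by
    have h27 : 27 * (s₁ * s₂ * s₃) ≤ (s₁ + s₂ + s₃) ^ 3 := by
      nlinarith [mul_nonneg h1 (sq_nonneg (s₂ - s₃)), mul_nonneg h2 (sq_nonneg (s₁ - s₃)),
        mul_nonneg h3 (sq_nonneg (s₁ - s₂)), mul_nonneg h1 (sq_nonneg (s₁ - s₂)),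
        mul_nonneg h2 (sq_nonneg (s₁ - s₂)), mul_nonneg h1 (sq_nonneg (s₁ - s₃)),
        mul_nonneg h3 (sq_nonneg (s₁ - s₃)), mul_nonneg h2 (sq_nonneg (s₂ - s₃)),
        mul_nonneg h3 (sq_nonneg (s₂ - s₃))]
    rw [e] at h27
    nlinarith
  have hcub : 0 ≤ 9 / 20 * τ ^ 3 - τ + 11 / 20 := by
    rw [e] at h
    nlinarith
  have hfac : 0 ≤ (1 - τ) * (11 / 20 - 9 / 20 * τ - 9 / 20 * τ ^ 2) := by nlinarith
  have hq : 0 ≤ 11 / 20 - 9 / 20 * τ - 9 / 20 * τ ^ 2 := by
    by_contra hcon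
    rw [not_le] at hcon
    have : (1 - τ) * (11 / 20 - 9 / 20 * τ - 9 / 20 * τ ^ 2) < 0 :=
      mul_neg_of_pos_of_neg (by linarith) hcon
    linarith
  have hτb : τ ≤ 0.714 := by
    by_contra hcon
    rw [not_le] at hcon
    nlinarith
  have hτ3 : τ ^ 3 ≤ 0.714 ^ 3 := pow_le_pow_left₀ hτ0 hτb 3
  have he := Real.exp_one_lt_d9
  have hpos := Real.exp_pos 1
  calc Real.exp 1 * (s₁ * s₂ * s₃) ≤ Real.exp 1 * τ ^ 3 :=
        mul_le_mul_of_nonneg_left hamgm hpos.le
    _ ≤ Real.exp 1 * 0.714 ^ 3 := mul_le_mul_of_nonneg_left hτ3 hpos.le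
    _ ≤ 1 := by nlinarith

/-- three pairs of slices -/
theorem three_key2 {a b c A B C α β γ : ℝ} (ha0 : 0 ≤ a) (hb0 : 0 ≤ b) (hc0 : 0 ≤ c)
    (hα0 : 0 < α) (hβ0 : 0 < β) (hγ0 : 0 < γ)
    (hα : α ≤ 9 / 20 * a + 11 / 20 * A) (hβ : β ≤ 9 / 20 * b + 11 / 20 * B)
    (hγ : γ ≤ 9 / 20 * c + 11 / 20 * C) (hα1 : α ≤ A) (hβ1 : β ≤ B) (hγ1 : γ ≤ C) :
    Real.exp 1 * (α * β * γ) ≤ A * B * C ∨ α * β * γ ≤ a * B * C ∨ α * β * γ ≤ A * b * C ∨
      α * β * γ ≤ A * B * c := by
  by_contra hcon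
  push Not at hcon
  obtain ⟨h0, h1, h2, h3⟩ := hcon
  have hA : 0 < A := hα0.trans_le hα1
  have hB : 0 < B := hβ0.trans_le hβ1
  have hC : 0 < C := hγ0.trans_le hγ1
  set q : ℝ := (α / A) * (β / B) * (γ / C) with hq
  have hqe : q * (A * B * C) = α * β * γ := by
    rw [hq]; field_simp
  have g1 : a / A < q := by
    rw [div_lt_iff₀ hA]
    rw [← hqe] at h1
    have : a * (B * C) < (q * A) * (B * C) := by linarith
    exact lt_of_mul_lt_mul_right this (by positivity)
  have g2 : b / B < q := by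
    rw [div_lt_iff₀ hB]
    rw [← hqe] at h2
    have : b * (A * C) < (q * B) * (A * C) := by linarith
    exact lt_of_mul_lt_mul_right this (by positivity)
  have g3 : c / C < q := by
    rw [div_lt_iff₀ hC]
    rw [← hqe] at h3
    have : c * (A * B) < (q * C) * (A * B) := by linarith
    exact lt_of_mul_lt_mul_right this (by positivity)
  have k1 : α / A ≤ 9 / 20 * (a / A) + 11 / 20 := by
    rw [div_le_iff₀ hA]
    have : (9 / 20 * (a / A) + 11 / 20) * A = 9 / 20 * a + 11 / 20 * A := by field_simp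
    rw [this]; exact hα
  have k2 : β / B ≤ 9 / 20 * (b / B) + 11 / 20 := by
    rw [div_le_iff₀ hB]
    have : (9 / 20 * (b / B) + 11 / 20) * B = 9 / 20 * b + 11 / 20 * B := by field_simp
    rw [this]; exact hβ
  have k3 : γ / C ≤ 9 / 20 * (c / C) + 11 / 20 := by
    rw [div_le_iff₀ hC]
    have : (9 / 20 * (c / C) + 11 / 20) * C = 9 / 20 * c + 11 / 20 * C := by field_simp
    rw [this]; exact hγ
  have hne : ¬ (α / A = 1 ∧ β / B = 1 ∧ γ / C = 1) := by
    rintro ⟨e1, e2, e3⟩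
    have hq1 : q = 1 := by rw [hq, e1, e2, e3]; norm_num
    rw [hq1] at g1
    rw [e1] at k1
    linarith
  have hfin := alg_key2 (div_nonneg hα0.le hA.le) (div_nonneg hβ0.le hB.le)
    (div_nonneg hγ0.le hC.le) ((div_le_one hA).mpr hα1) ((div_le_one hB).mpr hβ1)
    ((div_le_one hC).mpr hγ1) hne (by rw [← hq]; linarith)
  rw [← hq] at hfin
  have : Real.exp 1 * (α * β * γ) ≤ A * B * C := by
    rw [← hqe]
    have := mul_le_mul_of_nonneg_right hfin (by positivity : 0 ≤ A * B * C)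
    linarith
  linarith

variable {d : ℕ}

/-- the slice at a value of the zeroth coordinate -/
def sl (A : Set (Fin (d + 1) → T)) (y : T) : Set (Fin d → T) :=
  {x | (Fin.cons y x : Fin (d + 1) → T) ∈ A}

noncomputable def sf (A : Set (Fin (d + 1) → T)) (y : T) : ℝ := volume.real (sl A y)

theorem measurableSet_sl {A : Set (Fin (d + 1) → T)} (hA : MeasurableSet A) (y : T) :
    MeasurableSet (sl A y) := by
  have : Measurable (fun x : Fin d → T => (Fin.cons y x : Fin (d + 1) → T)) := by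
    have e : (fun x : Fin d → T => (Fin.cons y x : Fin (d + 1) → T)) =
        fun x => (eqv d).symm (y, x) := by
      funext x; rw [eqv_symm]
    rw [e]
    exact (eqv d).symm.measurable.comp (measurable_const.prodMk measurable_id)
  exact this hA

theorem measurable_vsl {A : Set (Fin (d + 1) → T)} (hA : MeasurableSet A) :
    Measurable (fun y => volume (sl A y)) := by
  have h := measurable_measure_prodMk_left (ν := (volume : Measure (Fin d → T)))
    (s := (eqv d).symm ⁻¹' A) ((eqv d).symm.measurable hA)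
  convert h using 2 with x
  congr 1
  ext y
  simp only [sl, mem_ofPred_eq, mem_preimage, eqv_symm]

theorem integral_sf {A : Set (Fin (d + 1) → T)} (hA : MeasurableSet A) :
    ∫ y, sf A y = volume.real A := by
  have h0 : volume A = volume ((eqv d).symm ⁻¹' A) :=
    ((eqv_mp d).symm.measure_preimage_equiv A).symm
  have h1 : volume ((eqv d).symm ⁻¹' A) = ∫⁻ y, volume (sl A y) := by
    have h := Measure.prod_apply (μ := (volume : Measure T))
      (ν := (volume : Measure (Fin d → T))) (s := (eqv d).symm ⁻¹' A)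
      ((eqv d).symm.measurable hA)
    rw [← Measure.volume_eq_prod] at h
    rw [h]
    refine lintegral_congr (fun y => ?_)
    congr 1
    ext x
    simp only [sl, mem_ofPred_eq, mem_preimage, eqv_symm]
  have h2 : ∫ y, sf A y = (∫⁻ y, volume (sl A y)).toReal :=
    integral_toReal (measurable_vsl hA).aemeasurable
      (Filter.Eventually.of_forall (fun x => measure_lt_top _ _))
  rw [h2, ← h1, ← h0]
  rfl

theorem integrable_sf {A : Set (Fin (d + 1) → T)} (hA : MeasurableSet A) :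
    Integrable (sf A) volume := by
  refine Integrable.of_bound (measurable_vsl hA).ennreal_toReal.aestronglyMeasurable 1
    (Filter.Eventually.of_forall (fun x => ?_))
  show ‖sf A x‖ ≤ 1
  rw [Real.norm_eq_abs, abs_of_nonneg (show 0 ≤ sf A x from measureReal_nonneg)]
  exact measureReal_le_one

/-- two slices -/
theorem slices {A : Set (Fin (d + 1) → T)} (hA : MeasurableSet A) {U : Set T}
    (hU : MeasurableSet U) (hp : 9 / 20 ≤ volume.real U) :
    ∃ y₁ ∈ U, ∃ y₂ : T, ∃ a M : ℝ, 0 ≤ a ∧ a ≤ sf A y₁ ∧ M ≤ sf A y₂ ∧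
      volume.real A ≤ 9 / 20 * a + 11 / 20 * M ∧ volume.real A ≤ M := by
  have hint := integrable_sf hA
  have hU0 : volume U ≠ 0 := by
    intro h
    have : volume.real U = 0 := by simp [measureReal_def, h]
    linarith
  obtain ⟨y₁, hy1, hav⟩ := exists_setAverage_le hU0 (measure_ne_top _ _) hint.integrableOn
  set a : ℝ := ⨍ y in U, sf A y with ha
  have ha' : a * volume.real U = ∫ y in U, sf A y := by
    rw [ha, setAverage_eq, smul_eq_mul]
    have : volume.real U ≠ 0 := by linarith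
    field_simp
  have ha0 : 0 ≤ a := by
    rw [ha, setAverage_eq, smul_eq_mul]
    refine mul_nonneg (inv_nonneg.mpr measureReal_nonneg) ?_
    exact integral_nonneg (fun y => measureReal_nonneg)
  by_cases hcase : volume.real A ≤ a
  · exact ⟨y₁, hy1, y₁, a, a, ha0, hav, hav, by linarith, hcase⟩
  · rw [not_le] at hcase
    have hsplit : (∫ y in U, sf A y) + ∫ y in Uᶜ, sf A y = volume.real A := by
      rw [integral_add_compl hU hint, integral_sf hA]
    have hcompl : volume.real Uᶜ = 1 - volume.real U := by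
      rw [measureReal_compl hU]
      simp
    have hpc : 0 < volume.real Uᶜ := by
      rcases (measureReal_nonneg (μ := (volume : Measure T)) (s := Uᶜ)).lt_or_eq with h | h
      · exact h
      · exfalso
        have hz : volume Uᶜ = 0 := by
          have := h.symm
          rw [measureReal_def, ENNReal.toReal_eq_zero_iff] at this
          rcases this with h' | h'
          · exact h'
          · exact absurd h' (measure_ne_top _ _)
        have h2 : ∫ y in Uᶜ, sf A y = 0 := by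
          rw [Measure.restrict_eq_zero.mpr hz]
          simp
        have h3 : volume.real U = 1 := by linarith
        rw [h2, add_zero, ← ha', h3, mul_one] at hsplit
        linarith
    have hUc0 : volume Uᶜ ≠ 0 := by
      intro h
      have : volume.real Uᶜ = 0 := by simp [measureReal_def, h]
      linarith
    obtain ⟨y₂, hy2, hav2⟩ := exists_setAverage_le hUc0 (measure_ne_top _ _) hint.integrableOn
    set b : ℝ := ⨍ y in Uᶜ, sf A y with hb
    have hb' : b * volume.real Uᶜ = ∫ y in Uᶜ, sf A y := by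
      rw [hb, setAverage_eq, smul_eq_mul]
      field_simp
    have hsum : a * volume.real U + b * (1 - volume.real U) = volume.real A := by
      rw [ha', ← hcompl, hb', hsplit]
    have hab : volume.real A ≤ b := by
      by_contra hcon
      rw [not_le] at hcon
      rw [hcompl] at hpc
      nlinarith
    refine ⟨y₁, hy1, y₂, a, b, ha0, hav, hav2, ?_, hab⟩
    nlinarith

/-- **Covering lemma.** -/
theorem cov (d : ℕ) : ∀ (U : Fin d → Set T), (∀ i, MeasurableSet (U i)) →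
    (∀ i, 9 / 20 ≤ volume.real (U i)) →
    ∀ A₁ A₂ A₃ : Set (Fin d → T), MeasurableSet A₁ → MeasurableSet A₂ →
    MeasurableSet A₃ → 0 < volume.real A₁ → 0 < volume.real A₂ → 0 < volume.real A₃ →
    ∃ x₁ ∈ A₁, ∃ x₂ ∈ A₂, ∃ x₃ ∈ A₃, ∃ J : Finset (Fin d),
      Real.exp J.card * (volume.real A₁ * volume.real A₂ * volume.real A₃) ≤ 1 ∧
      ∀ i ∉ J, x₁ i ∈ U i ∨ x₂ i ∈ U i ∨ x₃ i ∈ U i := by
  induction d with
  | zero =>
    intro U _ _ A₁ A₂ A₃ _ _ _ h1 h2 h3
    have ne : ∀ A : Set (Fin 0 → T), 0 < volume.real A → A.Nonempty := by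
      intro A hA
      by_contra hcon
      rw [not_nonempty_iff_eq_empty] at hcon
      rw [hcon] at hA
      simp at hA
    obtain ⟨x₁, k1⟩ := ne A₁ h1
    obtain ⟨x₂, k2⟩ := ne A₂ h2
    obtain ⟨x₃, k3⟩ := ne A₃ h3
    refine ⟨x₁, k1, x₂, k2, x₃, k3, ∅, ?_, fun i => i.elim0⟩
    have e1 : volume.real A₁ ≤ 1 := measureReal_le_one
    have e2 : volume.real A₂ ≤ 1 := measureReal_le_one
    have e3 : volume.real A₃ ≤ 1 := measureReal_le_one
    have e4 : volume.real A₁ * volume.real A₂ ≤ 1 := mul_le_one₀ e1 h2.le e2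
    simpa using mul_le_one₀ e4 h3.le e3
  | succ d ih =>
    intro U hU hUp A₁ A₂ A₃ m1 m2 m3 p1 p2 p3
    obtain ⟨y₁, hy1, z₁, a₁, M₁, ha1, hs1, ht1, hα1, hM1⟩ := slices m1 (hU 0) (hUp 0)
    obtain ⟨y₂, hy2, z₂, a₂, M₂, ha2, hs2, ht2, hα2, hM2⟩ := slices m2 (hU 0) (hUp 0)
    obtain ⟨y₃, hy3, z₃, a₃, M₃, ha3, hs3, ht3, hα3, hM3⟩ := slices m3 (hU 0) (hUp 0)
    have hP : 0 < volume.real A₁ * volume.real A₂ * volume.real A₃ := by positivity
    have hM1' : 0 < M₁ := p1.trans_le hM1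
    have hM2' : 0 < M₂ := p2.trans_le hM2
    have hM3' : 0 < M₃ := p3.trans_le hM3
    have out : ∀ w₁ w₂ w₃ : T, ∀ b₁ b₂ b₃ : ℝ, 0 ≤ b₁ → 0 ≤ b₂ → 0 ≤ b₃ →
        b₁ ≤ sf A₁ w₁ → b₂ ≤ sf A₂ w₂ → b₃ ≤ sf A₃ w₃ →
        volume.real A₁ * volume.real A₂ * volume.real A₃ ≤ b₁ * b₂ * b₃ →
        (w₁ ∈ U 0 ∨ w₂ ∈ U 0 ∨ w₃ ∈ U 0) →
        ∃ x₁ ∈ A₁, ∃ x₂ ∈ A₂, ∃ x₃ ∈ A₃, ∃ J : Finset (Fin (d + 1)),
          Real.exp J.card * (volume.real A₁ * volume.real A₂ * volume.real A₃) ≤ 1 ∧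
          ∀ i ∉ J, x₁ i ∈ U i ∨ x₂ i ∈ U i ∨ x₃ i ∈ U i := by
      intro w₁ w₂ w₃ b₁ b₂ b₃ n1 n2 n3 l1 l2 l3 hle hw
      have hpos := hP.trans_le hle
      have q1 : 0 < b₁ := by
        rcases n1.lt_or_eq with h | h
        · exact h
        · rw [← h] at hpos; simp at hpos
      have q2 : 0 < b₂ := by
        rcases n2.lt_or_eq with h | h
        · exact h
        · rw [← h] at hpos; simp at hpos
      have q3 : 0 < b₃ := by
        rcases n3.lt_or_eq with h | h
        · exact h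
        · rw [← h] at hpos; simp at hpos
      obtain ⟨x₁, k1, x₂, k2, x₃, k3, J', hJ1, hJ2⟩ := ih (fun i => U i.succ)
        (fun i => hU i.succ) (fun i => hUp i.succ) (sl A₁ w₁) (sl A₂ w₂) (sl A₃ w₃)
        (measurableSet_sl m1 _) (measurableSet_sl m2 _) (measurableSet_sl m3 _)
        (q1.trans_le l1) (q2.trans_le l2) (q3.trans_le l3)
      refine ⟨Fin.cons w₁ x₁, k1, Fin.cons w₂ x₂, k2, Fin.cons w₃ x₃, k3,
        J'.map (Fin.succEmb d), ?_, ?_⟩
      · rw [Finset.card_map]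
        refine le_trans (mul_le_mul_of_nonneg_left ?_ (Real.exp_pos _).le) hJ1
        refine hle.trans ?_
        exact mul_le_mul (mul_le_mul l1 l2 n2 (n1.trans l1)) l3 n3
          (mul_nonneg (n1.trans l1) (n2.trans l2))
      · intro i hi
        refine Fin.cases ?_ (fun j => ?_) i hi
        · intro _
          simpa using hw
        · intro hj
          have : j ∉ J' := by
            intro h
            apply hj
            rw [Finset.mem_map]
            exact ⟨j, h, rfl⟩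
          simpa using hJ2 j this
    rcases three_key2 ha1 ha2 ha3 p1 p2 p3 hα1 hα2 hα3 hM1 hM2 hM3 with h | h | h | h
    · obtain ⟨x₁, k1, x₂, k2, x₃, k3, J', hJ1, hJ2⟩ := ih (fun i => U i.succ)
        (fun i => hU i.succ) (fun i => hUp i.succ) (sl A₁ z₁) (sl A₂ z₂) (sl A₃ z₃)
        (measurableSet_sl m1 _) (measurableSet_sl m2 _) (measurableSet_sl m3 _)
        (hM1'.trans_le ht1) (hM2'.trans_le ht2) (hM3'.trans_le ht3)
      refine ⟨Fin.cons z₁ x₁, k1, Fin.cons z₂ x₂, k2, Fin.cons z₃ x₃, k3,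
        insert 0 (J'.map (Fin.succEmb d)), ?_, ?_⟩
      · have hnot : (0 : Fin (d + 1)) ∉ J'.map (Fin.succEmb d) := by
          rw [Finset.mem_map]
          rintro ⟨i, _, hi⟩
          exact Fin.succ_ne_zero i hi
        rw [Finset.card_insert_of_notMem hnot, Finset.card_map]
        push_cast
        rw [Real.exp_add, mul_assoc]
        refine le_trans (mul_le_mul_of_nonneg_left ?_ (Real.exp_pos _).le) hJ1
        refine h.trans ?_
        exact mul_le_mul (mul_le_mul ht1 ht2 hM2'.le (hM1'.le.trans ht1)) ht3 hM3'.le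
          (mul_nonneg (hM1'.le.trans ht1) (hM2'.le.trans ht2))
      · intro i hi
        refine Fin.cases ?_ (fun j => ?_) i hi
        · intro h0
          exact (h0 (Finset.mem_insert_self _ _)).elim
        · intro hj
          have : j ∉ J' := by
            intro h
            apply hj
            rw [Finset.mem_insert, Finset.mem_map]
            exact Or.inr ⟨j, h, rfl⟩
          simpa using hJ2 j this
    · exact out y₁ z₂ z₃ a₁ M₂ M₃ ha1 hM2'.le hM3'.le hs1 ht2 ht3 h (Or.inl hy1)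
    · exact out z₁ y₂ z₃ M₁ a₂ M₃ hM1'.le ha2 hM3'.le ht1 hs2 ht3 h (Or.inr (Or.inl hy2))
    · exact out z₁ z₂ y₃ M₁ M₂ a₃ hM1'.le hM2'.le ha3 ht1 ht2 hs3 h (Or.inr (Or.inr hy3))

end Pool.Agent.Helper30.Bog
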