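import Pool.Agent.Helper30.Bog.Key

/-!
# The projection theorem
-/

open MeasureTheory Set

namespace Pool.Agent.Helper30.Bog

/-- The circle `ℝ/ℤ` (Haar probability measure = `volume`). -/
abbrev T := UnitAddCircle

instance prob_T : IsProbabilityMeasure (volume : Measure T) :=
  ⟨UnitAddCircle.measure_univ⟩

instance prob_pi (d : ℕ) : IsProbabilityMeasure (volume : Measure (Fin d → T)) :=
  inferInstanceAs (IsProbabilityMeasure (Measure.pi fun _ : Fin d => (volume : Measure T)))

/-- two sets of large measure add up to everything -/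
theorem cover2 {X Y : Set T} (hY : MeasurableSet Y) {s t : ℝ} (hst : 1 ≤ s + t)
    (hX1 : s < volume.real X) (hY1 : t < volume.real Y) (w : T) :
    ∃ x ∈ X, ∃ y ∈ Y, x + y = w := by
  have hpre : volume ((fun x : T => w - x) ⁻¹' Y) = volume Y :=
    (Measure.measurePreserving_sub_left volume w).measure_preimage hY.nullMeasurableSet
  have hmeas : MeasurableSet ((fun x : T => w - x) ⁻¹' Y) :=
    (measurable_const.sub measurable_id) hY
  have hlt : volume (univ : Set T) < volume X + volume ((fun x : T => w - x) ⁻¹' Y) := by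
    rw [hpre, measure_univ]
    have h1 : (1 : ℝ) < volume.real X + volume.real Y := by linarith
    have h2 : ENNReal.ofReal 1 < ENNReal.ofReal (volume.real X + volume.real Y) :=
      (ENNReal.ofReal_lt_ofReal_iff (by linarith)).mpr h1
    rw [ENNReal.ofReal_one, ENNReal.ofReal_add measureReal_nonneg measureReal_nonneg,
      ofReal_measureReal, ofReal_measureReal] at h2
    exact h2
  obtain ⟨x, hx1, hx2⟩ := nonempty_inter_of_measure_lt_add volume hmeas (subset_univ X)
    (subset_univ _) hlt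
  exact ⟨x, hx1, w - x, hx2, by abel⟩

variable {d : ℕ}

/-- the fibre of `A` in the zeroth coordinate -/
def fib (A : Set (Fin (d + 1) → T)) (x : Fin d → T) : Set T :=
  {y | (Fin.cons y x : Fin (d + 1) → T) ∈ A}

/-- the equivalence -/
noncomputable def eqv (d : ℕ) : (Fin (d + 1) → T) ≃ᵐ T × (Fin d → T) :=
  MeasurableEquiv.piFinSuccAbove (fun _ => T) 0

theorem eqv_symm (y : T) (x : Fin d → T) : (eqv d).symm (y, x) = Fin.cons y x := by
  unfold eqv
  exact Fin.insertNth_zero' (β := T) y x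

theorem eqv_mp (d : ℕ) : MeasurePreserving (eqv d) volume volume :=
  volume_preserving_piFinSuccAbove (fun _ => T) 0

theorem measurable_cons (x : Fin d → T) :
    Measurable (fun y : T => (Fin.cons y x : Fin (d + 1) → T)) := by
  have : (fun y : T => (Fin.cons y x : Fin (d + 1) → T)) =
      fun y => (eqv d).symm (y, x) := by
    funext y; rw [eqv_symm]
  rw [this]
  exact (eqv d).symm.measurable.comp (measurable_id.prodMk measurable_const)

theorem measurableSet_fib {A : Set (Fin (d + 1) → T)} (hA : MeasurableSet A) (x : Fin d → T) :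
    MeasurableSet (fib A x) := measurable_cons x hA

/-- the measure of the fibre -/
noncomputable def gf (A : Set (Fin (d + 1) → T)) (x : Fin d → T) : ℝ := volume.real (fib A x)

theorem gf_nonneg (A : Set (Fin (d + 1) → T)) (x : Fin d → T) : 0 ≤ gf A x := measureReal_nonneg

theorem gf_le_one (A : Set (Fin (d + 1) → T)) (x : Fin d → T) : gf A x ≤ 1 := measureReal_le_one

theorem measurable_vfib {A : Set (Fin (d + 1) → T)} (hA : MeasurableSet A) :
    Measurable (fun x => volume (fib A x)) := by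
  have h := measurable_measure_prodMk_right (μ := (volume : Measure T))
    (s := (eqv d).symm ⁻¹' A) ((eqv d).symm.measurable hA)
  convert h using 2 with x
  congr 1
  ext y
  simp only [fib, mem_ofPred_eq, mem_preimage, eqv_symm]

theorem measurable_gf {A : Set (Fin (d + 1) → T)} (hA : MeasurableSet A) :
    Measurable (gf A) := (measurable_vfib hA).ennreal_toReal

theorem integral_gf {A : Set (Fin (d + 1) → T)} (hA : MeasurableSet A) :
    ∫ x, gf A x = volume.real A := by
  have h0 : volume A = volume ((eqv d).symm ⁻¹' A) :=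
    ((eqv_mp d).symm.measure_preimage_equiv A).symm
  have h1 : volume ((eqv d).symm ⁻¹' A) = ∫⁻ x, volume (fib A x) := by
    have h := Measure.prod_apply_symm (μ := (volume : Measure T))
      (ν := (volume : Measure (Fin d → T))) (s := (eqv d).symm ⁻¹' A)
      ((eqv d).symm.measurable hA)
    rw [← Measure.volume_eq_prod] at h
    rw [h]
    refine lintegral_congr (fun x => ?_)
    congr 1
    ext y
    simp only [fib, mem_ofPred_eq, mem_preimage, eqv_symm]
  have h2 : ∫ x, gf A x = (∫⁻ x, volume (fib A x)).toReal :=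
    integral_toReal (measurable_vfib hA).aemeasurable
      (Filter.Eventually.of_forall (fun x => measure_lt_top _ _))
  rw [h2, ← h1, ← h0]
  rfl

/-- the distribution function of the fibre measure -/
noncomputable def dist (A : Set (Fin (d + 1) → T)) (t : ℝ) : ℝ :=
  volume.real {x : Fin d → T | max t 0 < gf A x}

theorem dist_antitone (A : Set (Fin (d + 1) → T)) : Antitone (dist A) := by
  intro s t hst
  refine measureReal_mono (fun x hx => ?_) (measure_ne_top _ _)
  exact lt_of_le_of_lt (max_le_max hst le_rfl) hx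

theorem dist_bound (A : Set (Fin (d + 1) → T)) (t : ℝ) : 0 ≤ dist A t ∧ dist A t ≤ dist A 0 := by
  refine ⟨measureReal_nonneg, measureReal_mono (fun x hx => ?_) (measure_ne_top _ _)⟩
  have hx' : max t 0 < gf A x := hx
  show max (0 : ℝ) 0 < gf A x
  rw [max_self]
  exact lt_of_le_of_lt (le_max_right _ _) hx'

theorem integrable_gf {A : Set (Fin (d + 1) → T)} (hA : MeasurableSet A) :
    Integrable (gf A) volume := by
  refine Integrable.of_bound (measurable_gf hA).aestronglyMeasurable 1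
    (Filter.Eventually.of_forall (fun x => ?_))
  rw [Real.norm_eq_abs, abs_of_nonneg (gf_nonneg A x)]
  exact gf_le_one A x

theorem le_integral_dist {A : Set (Fin (d + 1) → T)} (hA : MeasurableSet A) :
    volume.real A = ∫ t in (0 : ℝ)..1, dist A t := by
  rw [← integral_gf hA, Integrable.integral_eq_integral_meas_lt (integrable_gf hA)
    (Filter.Eventually.of_forall (fun x => gf_nonneg A x)),
    intervalIntegral.integral_of_le zero_le_one]
  have hsub : Set.Ioc (0 : ℝ) 1 ⊆ Set.Ioi 0 := fun t ht => ht.1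
  have hz : ∀ t ∈ Set.Ioi (0 : ℝ) \ Set.Ioc (0 : ℝ) 1,
      volume.real {a : Fin d → T | t < gf A a} = 0 := by
    intro t ht
    have ht0 : 0 < t := ht.1
    have ht1 : 1 < t := by
      by_contra hcon
      exact ht.2 ⟨ht0, not_lt.mp hcon⟩
    have : {a : Fin d → T | t < gf A a} = ∅ := by
      ext a
      simp only [mem_ofPred_eq, mem_empty_iff_false, iff_false, not_lt]
      exact (gf_le_one A a).trans ht1.le
    rw [this]
    simp
  rw [setIntegral_eq_of_subset_of_forall_sdiff_eq_zero measurableSet_Ioi hsub hz]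
  refine setIntegral_congr_fun measurableSet_Ioc (fun t ht => ?_)
  show volume.real {a | t < gf A a} = dist A t
  unfold dist
  rw [max_eq_left ht.1.le]

theorem le_dist_zero {A : Set (Fin (d + 1) → T)} (hA : MeasurableSet A) :
    volume.real A ≤ dist A 0 := by
  rw [le_integral_dist hA]
  calc ∫ t in (0 : ℝ)..1, dist A t ≤ ∫ t in (0 : ℝ)..1, dist A 0 :=
        intervalIntegral.integral_mono_on zero_le_one (dist_antitone A).intervalIntegrable
          (by simp) (fun t _ => (dist_bound A t).2)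
    _ = dist A 0 := by simp

theorem measurableSet_level {A : Set (Fin (d + 1) → T)} (hA : MeasurableSet A) (t : ℝ) :
    MeasurableSet {x : Fin d → T | max t 0 < gf A x} :=
  measurableSet_lt measurable_const (measurable_gf hA)

theorem fib_nonempty_of {A : Set (Fin (d + 1) → T)} {x : Fin d → T} {t : ℝ}
    (h : max t 0 < gf A x) : (fib A x).Nonempty := by
  have h0 : 0 < gf A x := lt_of_le_of_lt (le_max_right _ _) h
  by_contra hcon
  rw [not_nonempty_iff_eq_empty] at hcon
  unfold gf at h0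
  rw [hcon] at h0
  simp at h0

/-- lifting a solution by one coordinate -/
theorem lift {A₁ A₂ A₃ : Set (Fin (d + 1) → T)} {B₁ B₂ B₃ : Set (Fin d → T)}
    {J' : Finset (Fin d)} {J : Finset (Fin (d + 1))} (hJ : ∀ i : Fin d, i.succ ∉ J → i ∉ J')
    (h : ∀ z : Fin d → T, ∃ x₁ ∈ B₁, ∃ x₂ ∈ B₂, ∃ x₃ ∈ B₃, ∀ i ∉ J', x₁ i + x₂ i + x₃ i = z i)
    (hc : ∀ x₁ ∈ B₁, ∀ x₂ ∈ B₂, ∀ x₃ ∈ B₃, ∀ w : T, ∃ y₁ ∈ fib A₁ x₁, ∃ y₂ ∈ fib A₂ x₂,
      ∃ y₃ ∈ fib A₃ x₃, (0 : Fin (d + 1)) ∉ J → y₁ + y₂ + y₃ = w) :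
    ∀ z : Fin (d + 1) → T, ∃ x₁ ∈ A₁, ∃ x₂ ∈ A₂, ∃ x₃ ∈ A₃,
      ∀ i ∉ J, x₁ i + x₂ i + x₃ i = z i := by
  intro z
  obtain ⟨x₁, h1, x₂, h2, x₃, h3, hz⟩ := h (fun i => z i.succ)
  obtain ⟨y₁, g1, y₂, g2, y₃, g3, hy⟩ := hc x₁ h1 x₂ h2 x₃ h3 (z 0)
  refine ⟨Fin.cons y₁ x₁, g1, Fin.cons y₂ x₂, g2, Fin.cons y₃ x₃, g3, ?_⟩
  intro i hi
  refine Fin.cases ?_ (fun j => ?_) i hi
  · intro h0
    simpa using hy h0
  · intro hj
    simpa using hz j (hJ j hj)

/-- **The projection theorem.** -/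
theorem proj (d : ℕ) : ∀ A₁ A₂ A₃ : Set (Fin d → T), MeasurableSet A₁ → MeasurableSet A₂ →
    MeasurableSet A₃ → 0 < volume.real A₁ → 0 < volume.real A₂ → 0 < volume.real A₃ →
    ∃ J : Finset (Fin d),
      Real.goldenRatio ^ (3 * J.card) * (volume.real A₁ * volume.real A₂ * volume.real A₃) ≤ 1 ∧
      ∀ z : Fin d → T, ∃ x₁ ∈ A₁, ∃ x₂ ∈ A₂, ∃ x₃ ∈ A₃, ∀ i ∉ J, x₁ i + x₂ i + x₃ i = z i := by
  induction d with
  | zero =>
    intro A₁ A₂ A₃ _ _ _ h1 h2 h3
    refine ⟨∅, ?_, ?_⟩
    · have e1 : volume.real A₁ ≤ 1 := measureReal_le_one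
      have e2 : volume.real A₂ ≤ 1 := measureReal_le_one
      have e3 : volume.real A₃ ≤ 1 := measureReal_le_one
      have e4 : volume.real A₁ * volume.real A₂ ≤ 1 := mul_le_one₀ e1 h2.le e2
      simpa using mul_le_one₀ e4 h3.le e3
    · intro z
      have ne : ∀ A : Set (Fin 0 → T), 0 < volume.real A → A.Nonempty := by
        intro A hA
        by_contra hcon
        rw [not_nonempty_iff_eq_empty] at hcon
        rw [hcon] at hA
        simp at hA
      obtain ⟨x₁, k1⟩ := ne A₁ h1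
      obtain ⟨x₂, k2⟩ := ne A₂ h2
      obtain ⟨x₃, k3⟩ := ne A₃ h3
      exact ⟨x₁, k1, x₂, k2, x₃, k3, fun i => i.elim0⟩
  | succ d ih =>
    intro A₁ A₂ A₃ m1 m2 m3 p1 p2 p3
    -- the level sets
    set L : Set (Fin (d + 1) → T) → ℝ → Set (Fin d → T) :=
      fun A t => {x | max t 0 < gf A x} with hL
    have hLv : ∀ A t, volume.real (L A t) = dist A t := fun A t => rfl
    have hLm : ∀ A, MeasurableSet A → ∀ t, MeasurableSet (L A t) :=
      fun A hA t => measurableSet_level hA t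
    have hP : 0 < volume.real A₁ * volume.real A₂ * volume.real A₃ := by positivity
    -- the induction step for given thresholds, coordinate zero covered
    have out : ∀ t₁ t₂ t₃ : ℝ,
        volume.real A₁ * volume.real A₂ * volume.real A₃ ≤
          dist A₁ t₁ * dist A₂ t₂ * dist A₃ t₃ →
        (∀ x₁ ∈ L A₁ t₁, ∀ x₂ ∈ L A₂ t₂, ∀ x₃ ∈ L A₃ t₃, ∀ w : T, ∃ y₁ ∈ fib A₁ x₁,
          ∃ y₂ ∈ fib A₂ x₂, ∃ y₃ ∈ fib A₃ x₃, y₁ + y₂ + y₃ = w) →
        ∃ J : Finset (Fin (d + 1)),
          Real.goldenRatio ^ (3 * J.card) *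
            (volume.real A₁ * volume.real A₂ * volume.real A₃) ≤ 1 ∧
          ∀ z : Fin (d + 1) → T, ∃ x₁ ∈ A₁, ∃ x₂ ∈ A₂, ∃ x₃ ∈ A₃,
            ∀ i ∉ J, x₁ i + x₂ i + x₃ i = z i := by
      intro t₁ t₂ t₃ hle hcov
      have hpos := hP.trans_le hle
      have n1 := (dist_bound A₁ t₁).1
      have n2 := (dist_bound A₂ t₂).1
      have n3 := (dist_bound A₃ t₃).1
      have q1 : 0 < dist A₁ t₁ := by
        rcases n1.lt_or_eq with h | h
        · exact h
        · rw [← h] at hpos; simp at hpos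
      have q2 : 0 < dist A₂ t₂ := by
        rcases n2.lt_or_eq with h | h
        · exact h
        · rw [← h] at hpos; simp at hpos
      have q3 : 0 < dist A₃ t₃ := by
        rcases n3.lt_or_eq with h | h
        · exact h
        · rw [← h] at hpos; simp at hpos
      obtain ⟨J', hJ1, hJ2⟩ := ih (L A₁ t₁) (L A₂ t₂) (L A₃ t₃) (hLm _ m1 _) (hLm _ m2 _)
        (hLm _ m3 _) q1 q2 q3
      rw [hLv, hLv, hLv] at hJ1
      refine ⟨J'.map (Fin.succEmb d), ?_, ?_⟩
      · rw [Finset.card_map]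
        refine le_trans (mul_le_mul_of_nonneg_left hle ?_) hJ1
        exact pow_nonneg Real.goldenRatio_pos.le _
      · refine lift (J' := J') (B₁ := L A₁ t₁) (B₂ := L A₂ t₂) (B₃ := L A₃ t₃) ?_ hJ2 ?_
        · intro i hi hi'
          apply hi
          rw [Finset.mem_map]
          exact ⟨i, hi', rfl⟩
        · intro x₁ h1 x₂ h2 x₃ h3 w
          obtain ⟨y₁, g1, y₂, g2, y₃, g3, hy⟩ := hcov x₁ h1 x₂ h2 x₃ h3 w
          exact ⟨y₁, g1, y₂, g2, y₃, g3, fun _ => hy⟩
    rcases three_key (dist_antitone A₁) (dist_antitone A₂) (dist_antitone A₃) (dist_bound A₁)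
      (dist_bound A₂) (dist_bound A₃) p1 p2 p3 (le_integral_dist m1).le (le_integral_dist m2).le
      (le_integral_dist m3).le (le_dist_zero m1) (le_dist_zero m2) (le_dist_zero m3) with
      h | ⟨t, ht, h⟩ | ⟨t, ht, h⟩ | ⟨t, ht, h⟩
    · -- coordinate zero goes to `J`
      obtain ⟨J', hJ1, hJ2⟩ := ih (L A₁ 0) (L A₂ 0) (L A₃ 0) (hLm _ m1 _) (hLm _ m2 _)
        (hLm _ m3 _) (p1.trans_le (le_dist_zero m1)) (p2.trans_le (le_dist_zero m2))
        (p3.trans_le (le_dist_zero m3))
      rw [hLv, hLv, hLv] at hJ1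
      refine ⟨insert 0 (J'.map (Fin.succEmb d)), ?_, ?_⟩
      · have hnot : (0 : Fin (d + 1)) ∉ J'.map (Fin.succEmb d) := by
          rw [Finset.mem_map]
          rintro ⟨i, _, hi⟩
          exact Fin.succ_ne_zero i hi
        rw [Finset.card_insert_of_notMem hnot, Finset.card_map]
        have e : Real.goldenRatio ^ (3 * (J'.card + 1)) *
            (volume.real A₁ * volume.real A₂ * volume.real A₃) =
            Real.goldenRatio ^ (3 * J'.card) * (Real.goldenRatio ^ 3 *
              (volume.real A₁ * volume.real A₂ * volume.real A₃)) := by ring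
        rw [e]
        refine le_trans (mul_le_mul_of_nonneg_left h ?_) hJ1
        exact pow_nonneg Real.goldenRatio_pos.le _
      · refine lift (J' := J') (B₁ := L A₁ 0) (B₂ := L A₂ 0) (B₃ := L A₃ 0) ?_ hJ2 ?_
        · intro i hi hi'
          apply hi
          rw [Finset.mem_insert, Finset.mem_map]
          exact Or.inr ⟨i, hi', rfl⟩
        · intro x₁ h1 x₂ h2 x₃ h3 w
          obtain ⟨y₁, g1⟩ := fib_nonempty_of h1
          obtain ⟨y₂, g2⟩ := fib_nonempty_of h2
          obtain ⟨y₃, g3⟩ := fib_nonempty_of h3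
          exact ⟨y₁, g1, y₂, g2, y₃, g3, fun h0 => (h0 (Finset.mem_insert_self _ _)).elim⟩
    · refine out t (1 - t) 0 h ?_
      intro x₁ h1 x₂ h2 x₃ h3 w
      obtain ⟨y₃, g3⟩ := fib_nonempty_of h3
      obtain ⟨y₁, g1, y₂, g2, hy⟩ := cover2 (measurableSet_fib m2 x₂) (s := t) (t := 1 - t)
        (by linarith) (lt_of_le_of_lt (le_max_left _ _) h1) (lt_of_le_of_lt (le_max_left _ _) h2)
        (w - y₃)
      exact ⟨y₁, g1, y₂, g2, y₃, g3, by rw [hy]; abel⟩
    · refine out t 0 (1 - t) h ?_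
      intro x₁ h1 x₂ h2 x₃ h3 w
      obtain ⟨y₂, g2⟩ := fib_nonempty_of h2
      obtain ⟨y₁, g1, y₃, g3, hy⟩ := cover2 (measurableSet_fib m3 x₃) (s := t) (t := 1 - t)
        (by linarith) (lt_of_le_of_lt (le_max_left _ _) h1) (lt_of_le_of_lt (le_max_left _ _) h3)
        (w - y₂)
      exact ⟨y₁, g1, y₂, g2, y₃, g3, by
        have : y₁ + y₂ + y₃ = (y₁ + y₃) + y₂ := by abel
        rw [this, hy]; abel⟩
    · refine out 0 t (1 - t) h ?_
      intro x₁ h1 x₂ h2 x₃ h3 w
      obtain ⟨y₁, g1⟩ := fib_nonempty_of h1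
      obtain ⟨y₂, g2, y₃, g3, hy⟩ := cover2 (measurableSet_fib m3 x₃) (s := t) (t := 1 - t)
        (by linarith) (lt_of_le_of_lt (le_max_left _ _) h2) (lt_of_le_of_lt (le_max_left _ _) h3)
        (w - y₁)
      exact ⟨y₁, g1, y₂, g2, y₃, g3, by
        have : y₁ + y₂ + y₃ = (y₂ + y₃) + y₁ := by abel
        rw [this, hy]; abel⟩

end Pool.Agent.Helper30.Bog
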