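import Pool.Agent.Helper30.Bog.Proj

/-!
# Sets invariant under permutations of the coordinates
-/

open MeasureTheory Set

namespace Pool.Agent.Helper30.Bog

/-- the projection theorem for one set -/
theorem proj_one {d : ℕ} {A : Set (Fin d → T)} (hA : MeasurableSet A) (h0 : 0 < volume.real A) :
    ∃ J : Finset (Fin d),
      (J.card : ℝ) ≤ Real.log (1 / volume.real A) / Real.log Real.goldenRatio ∧
      ∀ z : Fin d → T, ∃ x : Fin 3 → (Fin d → T), (∀ l, x l ∈ A) ∧
        ∀ i ∉ J, (∑ l, x l) i = z i := by
  obtain ⟨J, hJ1, hJ2⟩ := proj d A A A hA hA hA h0 h0 h0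
  refine ⟨J, ?_, ?_⟩
  · have hg1 : 1 < Real.goldenRatio := Real.one_lt_goldenRatio
    have hlog : 0 < Real.log Real.goldenRatio := Real.log_pos hg1
    rw [le_div_iff₀ hlog]
    have h3 : (Real.goldenRatio ^ J.card * volume.real A) ^ 3 ≤ 1 := by
      calc (Real.goldenRatio ^ J.card * volume.real A) ^ 3
          = Real.goldenRatio ^ (3 * J.card) *
            (volume.real A * volume.real A * volume.real A) := by ring
        _ ≤ 1 := hJ1
    have hnn : 0 ≤ Real.goldenRatio ^ J.card * volume.real A := by positivity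
    have h4 : Real.goldenRatio ^ J.card * volume.real A ≤ 1 := by
      by_contra hcon
      rw [not_le] at hcon
      have := one_lt_pow₀ hcon (n := 3) (by norm_num)
      linarith
    have h5 : Real.goldenRatio ^ J.card ≤ 1 / volume.real A := by
      rw [le_div_iff₀ h0]; exact h4
    have h6 := Real.log_le_log (by positivity) h5
    rwa [Real.log_pow] at h6
  · intro z
    obtain ⟨x₁, k1, x₂, k2, x₃, k3, hz⟩ := hJ2 z
    refine ⟨![x₁, x₂, x₃], ?_, ?_⟩
    · intro l
      fin_cases l
      · exact k1
      · exact k2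
      · exact k3
    · intro i hi
      rw [← hz i hi, Fin.sum_univ_three]
      rfl

/-- a cyclic permutation, and the solution of the difference equation -/
theorem exists_cycle (N : Type) [Fintype N] :
    ∃ σ : Equiv.Perm N, ∀ y : N → T, ∑ i, y i = 0 → ∃ u : N → T, ∀ i, u i - u (σ i) = y i := by
  classical
  obtain ⟨n, ⟨e⟩⟩ : ∃ n : ℕ, Nonempty (N ≃ Fin n) := ⟨_, ⟨Fintype.equivFin N⟩⟩
  cases n with
  | zero =>
    refine ⟨Equiv.refl N, fun y _ => ⟨fun _ => 0, fun i => ?_⟩⟩
    exact (e i).elim0
  | succ n =>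
    refine ⟨e.trans ((finRotate (n + 1)).trans e.symm), fun y hy => ?_⟩
    refine ⟨fun i => -∑ j ∈ Finset.Iio (e i), y (e.symm j), fun i => ?_⟩
    have hy' : ∑ j : Fin (n + 1), y (e.symm j) = 0 := by
      rw [← hy]
      exact Equiv.sum_comp e.symm y
    obtain ⟨k, rfl⟩ := e.symm.surjective i
    simp only [Equiv.trans_apply, Equiv.apply_symm_apply, finRotate_apply]
    rcases Fin.eq_castSucc_or_eq_last k with ⟨l, rfl⟩ | rfl
    · have e1 : (l.castSucc + 1 : Fin (n + 1)) = l.succ := Fin.coeSucc_eq_succ
      rw [e1]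
      have e2 : Finset.Iio (l.succ) = insert l.castSucc (Finset.Iio l.castSucc) := by
        ext j
        simp only [Finset.mem_Iio, Finset.mem_insert, Fin.lt_def, Fin.ext_iff, Fin.val_succ,
          Fin.val_castSucc]
        omega
      rw [e2, Finset.sum_insert (by simp)]
      abel
    · have e1 : (Fin.last n + 1 : Fin (n + 1)) = 0 := Fin.last_add_one n
      rw [e1]
      have e2 : (Finset.univ : Finset (Fin (n + 1))) =
          insert (Fin.last n) (Finset.Iio (Fin.last n)) := by
        ext j
        simp only [Finset.mem_univ, Finset.mem_insert, Finset.mem_Iio, true_iff]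
        rcases eq_or_ne j (Fin.last n) with h | h
        · exact Or.inl h
        · exact Or.inr (Fin.lt_last_iff_ne_last.mpr h)
      rw [e2, Finset.sum_insert (by simp)] at hy'
      have e3 : Finset.Iio (0 : Fin (n + 1)) = ∅ := by
        ext j; simp
      rw [e3, Finset.sum_empty]
      rw [eq_neg_of_add_eq_zero_left hy']
      abel

/-- the same with colour classes -/
theorem exists_cycles {N K : Type} [Fintype N] [DecidableEq K] (κ : N → K) :
    ∃ σ : Equiv.Perm N, (∀ i, κ (σ i) = κ i) ∧
      ∀ y : N → T, (∀ b, ∑ i with κ i = b, y i = 0) → ∃ u : N → T, ∀ i, u i - u (σ i) = y i := by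
  classical
  choose τ hτ using fun b : K => exists_cycle {i : N // κ i = b}
  let σ : Equiv.Perm N := (Equiv.sigmaFiberEquiv κ).symm.trans
    ((Equiv.sigmaCongrRight τ).trans (Equiv.sigmaFiberEquiv κ))
  have hσ : ∀ i, σ i = (τ (κ i) ⟨i, rfl⟩).1 := fun i => rfl
  refine ⟨σ, fun i => ?_, fun y hy => ?_⟩
  · rw [hσ]
    exact (τ (κ i) ⟨i, rfl⟩).2
  · have hy' : ∀ b, ∑ i : {i : N // κ i = b}, y i.1 = 0 := by
      intro b
      rw [← hy b]
      rw [Finset.sum_subtype (Finset.univ.filter (fun i => κ i = b)) (p := fun i => κ i = b)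
        (by simp) y]
    choose u hu using fun b => hτ b (fun i => y i.1) (hy' b)
    refine ⟨fun i => u (κ i) ⟨i, rfl⟩, fun i => ?_⟩
    have h := hu (κ i) ⟨i, rfl⟩
    have key : ∀ (j : N) (b : K) (hj : κ j = b), u (κ j) ⟨j, rfl⟩ = u b ⟨j, hj⟩ := by
      intro j b hj
      subst hj
      rfl
    show u (κ i) ⟨i, rfl⟩ - u (κ (σ i)) ⟨σ i, rfl⟩ = y i
    rw [key (σ i) (κ i) (by rw [hσ]; exact (τ (κ i) ⟨i, rfl⟩).2)]
    rw [← h]
    rfl

/-- a subtorus of vectors vanishing on `J` whose sums over the classes outside `J` vanish -/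
theorem exists_torus {d m : ℕ} (J : Finset (Fin d)) (κ : Fin d → Fin m) :
    ∃ (k : ℕ) (φ : (Fin k → T) →+ (Fin d → T)), Continuous φ ∧ Function.Injective φ ∧
      (d : ℝ) - k ≤ J.card + m ∧ (∀ w, ∀ j ∈ J, φ w j = 0) ∧
      ∀ w b, ∑ i with i ∉ J ∧ κ i = b, φ w i = 0 := by
  classical
  -- representatives
  have hr : ∃ r : Fin m → Fin d → Prop, ∀ b, (∃ i, i ∉ J ∧ κ i = b) →
      ∃ i, i ∉ J ∧ κ i = b ∧ ∀ j, r b j ↔ j = i := by
    refine ⟨fun b j => ∃ h : (∃ i, i ∉ J ∧ κ i = b), j = h.choose, fun b hb => ?_⟩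
    refine ⟨hb.choose, hb.choose_spec.1, hb.choose_spec.2, fun j => ?_⟩
    exact ⟨fun ⟨_, h⟩ => h, fun h => ⟨hb, h⟩⟩
  obtain ⟨r, hr⟩ := hr
  set P : Finset (Fin d) := Finset.univ.filter (fun i => i ∉ J ∧ r (κ i) i) with hP
  set F : Finset (Fin d) := (Finset.univ \ J) \ P with hF
  have hPcard : P.card ≤ m := by
    have h1 : P.card ≤ (Finset.univ : Finset (Fin m)).card := by
      refine Finset.card_le_card_of_injOn κ (fun i _ => Finset.mem_coe.mpr (Finset.mem_univ _)) ?_
      intro i hi j hj hij
      have hi' : i ∉ J ∧ r (κ i) i := by simpa [hP] using hi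
      have hj' : j ∉ J ∧ r (κ j) j := by simpa [hP] using hj
      obtain ⟨q, _, _, hq⟩ := hr (κ i) ⟨i, hi'.1, rfl⟩
      have h1 := (hq i).mp hi'.2
      have h2 := hj'.2
      rw [← hij] at h2
      exact h1.trans ((hq j).mp h2).symm
    simpa using h1
  have hFcard : (d : ℝ) - F.card ≤ J.card + m := by
    have h1 : d ≤ F.card + J.card + P.card := by
      have : (Finset.univ : Finset (Fin d)) ⊆ F ∪ J ∪ P := by
        intro i _
        simp only [hF, Finset.mem_union, Finset.mem_sdiff, Finset.mem_univ, true_and]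
        tauto
      have h2 := Finset.card_le_card this
      rw [Finset.card_univ, Fintype.card_fin] at h2
      have h3 := Finset.card_union_le (F ∪ J) P
      have h4 := Finset.card_union_le F J
      omega
    have h2 : (d : ℝ) ≤ F.card + J.card + P.card := by exact_mod_cast h1
    have h3 : (P.card : ℝ) ≤ m := by exact_mod_cast hPcard
    linarith
  let e : Fin F.card ≃ F := (Fintype.equivFinOfCardEq (Fintype.card_coe F)).symm
  -- extension by zero
  let W : (Fin F.card → T) → Fin d → T := fun w i => if h : i ∈ F then w (e.symm ⟨i, h⟩) else 0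
  have hWadd : ∀ w w' i, W (w + w') i = W w i + W w' i := by
    intro w w' i
    by_cases h : i ∈ F <;> simp [W, h]
  have hWc : ∀ i, Continuous (fun w => W w i) := by
    intro i
    by_cases h : i ∈ F
    · have : (fun w => W w i) = fun w : Fin F.card → T => w (e.symm ⟨i, h⟩) := by
        funext w; simp [W, h]
      rw [this]
      exact continuous_apply _
    · have : (fun w => W w i) = fun _ : Fin F.card → T => (0 : T) := by
        funext w; simp [W, h]
      rw [this]
      exact continuous_const
  let φ : (Fin F.card → T) →+ (Fin d → T) := AddMonoidHom.mk'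
    (fun w i => W w i - if i ∈ P then ∑ j with κ j = κ i, W w j else 0) (by
      intro w w'
      funext i
      simp only [Pi.add_apply]
      by_cases h : i ∈ P
      · simp only [h, if_true, hWadd, Finset.sum_add_distrib]
        abel
      · simp only [h, if_false, hWadd, sub_zero])
  have hφ : ∀ w i, φ w i = W w i - if i ∈ P then ∑ j with κ j = κ i, W w j else 0 :=
    fun w i => rfl
  have hPF : ∀ i ∈ P, i ∉ F := by
    intro i hi hi'
    rw [hF, Finset.mem_sdiff] at hi'
    exact hi'.2 hi
  have hJF : ∀ i ∈ J, i ∉ F := by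
    intro i hi hi'
    rw [hF, Finset.mem_sdiff, Finset.mem_sdiff] at hi'
    exact hi'.1.2 hi
  have hJP : ∀ i ∈ J, i ∉ P := by
    intro i hi hi'
    rw [hP, Finset.mem_filter] at hi'
    exact hi'.2.1 hi
  refine ⟨F.card, φ, ?_, ?_, hFcard, ?_, ?_⟩
  · refine continuous_pi (fun i => ?_)
    show Continuous (fun w => W w i - if i ∈ P then ∑ j with κ j = κ i, W w j else 0)
    by_cases h : i ∈ P
    · simp only [h, if_true]
      exact (hWc i).sub (continuous_finsetSum _ (fun j _ => hWc j))
    · simp only [h, if_false, sub_zero]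
      exact hWc i
  · rw [injective_iff_map_eq_zero]
    intro w hw
    funext a
    have h1 : ((e a).1 : Fin d) ∈ F := (e a).2
    have h2 : (e a).1 ∉ P := fun h => hPF _ h h1
    have h3 := congrFun hw (e a).1
    rw [hφ, if_neg h2, sub_zero] at h3
    simp only [W, h1, dif_pos] at h3
    have h4 : e.symm ⟨(e a).1, h1⟩ = a := by
      rw [Equiv.symm_apply_eq]
    rw [h4] at h3
    exact h3
  · intro w j hj
    rw [hφ, if_neg (hJP j hj), sub_zero]
    simp [W, hJF j hj]
  · intro w b
    by_cases hb : ∃ i, i ∉ J ∧ κ i = b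
    · obtain ⟨q, hq1, hq2, hq3⟩ := hr b hb
      have hWsum : ∑ j with κ j = b, W w j = ∑ i with i ∉ J ∧ κ i = b, W w i := by
        symm
        refine Finset.sum_subset ?_ ?_
        · intro i hi
          simp only [Finset.mem_filter, Finset.mem_univ, true_and] at hi ⊢
          exact hi.2
        · intro i hi hi'
          simp only [Finset.mem_filter, Finset.mem_univ, true_and] at hi hi'
          have hiJ : i ∈ J := by
            by_contra hcon
            exact hi' ⟨hcon, hi⟩
          simp [W, hJF i hiJ]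
      have hqP : q ∈ P := by
        rw [hP, Finset.mem_filter]
        refine ⟨Finset.mem_univ _, hq1, ?_⟩
        rw [hq2]
        exact (hq3 q).mpr rfl
      have hsplit : ∑ i with i ∉ J ∧ κ i = b, φ w i =
          ∑ i with i ∉ J ∧ κ i = b, W w i -
            ∑ i with i ∉ J ∧ κ i = b, (if i ∈ P then ∑ j with κ j = κ i, W w j else 0) := by
        rw [← Finset.sum_sub_distrib]
        exact Finset.sum_congr rfl (fun i _ => hφ w i)
      rw [hsplit]
      have hsecond : ∑ i with i ∉ J ∧ κ i = b,
          (if i ∈ P then ∑ j with κ j = κ i, W w j else 0) = ∑ j with κ j = b, W w j := by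
        rw [Finset.sum_eq_single q]
        · rw [if_pos hqP, hq2]
        · intro i hi hiq
          simp only [Finset.mem_filter, Finset.mem_univ, true_and] at hi
          rw [if_neg]
          intro hiP
          rw [hP, Finset.mem_filter] at hiP
          have := hiP.2.2
          rw [hi.2] at this
          exact hiq ((hq3 i).mp this)
        · intro hq
          exfalso
          apply hq
          simp only [Finset.mem_filter, Finset.mem_univ, true_and]
          exact ⟨hq1, hq2⟩
      rw [hsecond, hWsum, sub_self]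
    · have : (Finset.univ.filter (fun i => i ∉ J ∧ κ i = b)) = ∅ := by
        ext i
        simp only [Finset.mem_filter, Finset.mem_univ, true_and, Finset.notMem_empty, iff_false]
        exact fun h => hb ⟨i, h⟩
      rw [this, Finset.sum_empty]

end Pool.Agent.Helper30.Bog
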